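import Pool.Agent.U310.FS.Loc

set_option autoImplicit false
set_option maxHeartbeats 4000000
open Finset Polynomial

namespace Pool.Agent.U310.FS

variable {l : ℕ} [Fact l.Prime]

/-- solutions of the two equations -/
def NS (l : ℕ) [Fact l.Prime] (n t : ZMod l) : Finset (Fin 4 → ZMod l) :=
  univ.filter (fun u => ∑ i, u i ^ 2 = n ∧ u 0 ^ 2 + 3 * u 1 ^ 2 + 5 * u 2 ^ 2 + 7 * u 3 ^ 2 = t)

/-- the value of `x²` -/
def Aq (n t w z : ZMod l) : ZMod l := z ^ 2 + ((3 * n - t) / 2 + 2 * w ^ 2)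
/-- the value of `y²` -/
def Bq (n t w z : ZMod l) : ZMod l := -2 * (z ^ 2 + ((n - t) / 4 + 3 / 2 * w ^ 2))

lemma NS_card (hl2 : l ≠ 2) (n t : ZMod l) : ((NS l n t).card : ℤ) =
    ∑ w : ZMod l, ∑ z : ZMod l, (quadraticChar (ZMod l) (Aq n t w z) + 1) * (quadraticChar (ZMod l) (Bq n t w z) + 1) := by
  classical
  have h2 := two_ne hl2
  have h4 : (4 : ZMod l) ≠ 0 := by
    have : (4 : ZMod l) = 2 * 2 := by norm_num
    rw [this]; exact mul_ne_zero h2 h2
  rw [Finset.card_eq_sum_card_fiberwise (f := fun u => (u 3, u 2)) (t := univ ×ˢ univ) (fun u _ => by simp), Finset.sum_product]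
  push_cast
  apply Finset.sum_congr rfl
  intro w _
  apply Finset.sum_congr rfl
  intro z _
  rw [← card_sqrt hl2, ← card_sqrt hl2]
  rw [← Nat.cast_mul, ← Finset.card_product]
  congr 1
  apply Finset.card_nbij' (fun u => (u 0, u 1)) (fun p => ![p.1, p.2, z, w])
  · intro u hu
    rw [Finset.mem_coe, Finset.mem_filter, NS, Finset.mem_filter, Fin.sum_univ_four, Prod.mk.injEq] at hu
    obtain ⟨⟨_, h5, h6⟩, h7, h8⟩ := hu
    rw [Finset.mem_coe, Finset.mem_product, Finset.mem_filter, Finset.mem_filter]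
    simp only [Aq, Bq]
    rw [h7, h8] at h5 h6
    refine ⟨⟨Finset.mem_univ _, ?_⟩, ⟨Finset.mem_univ _, ?_⟩⟩
    · field_simp
      linear_combination 3 * h5 - h6
    · field_simp
      linear_combination 2 * h6 - 2 * h5
  · intro p hp
    rw [Finset.mem_coe, Finset.mem_product, Finset.mem_filter, Finset.mem_filter] at hp
    simp only [Aq, Bq] at hp
    obtain ⟨⟨_, h5⟩, _, h6⟩ := hp
    rw [Finset.mem_coe, Finset.mem_filter, NS, Finset.mem_filter, Fin.sum_univ_four, Prod.mk.injEq]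
    simp only [Matrix.cons_val_zero, Matrix.cons_val_one, Matrix.cons_val]
    refine ⟨⟨Finset.mem_univ _, ?_, ?_⟩, ?_⟩
    · rw [h5, h6]
      field_simp
      ring
    · rw [h5, h6]
      field_simp
      ring
    · first | trivial | exact ⟨rfl, rfl⟩
  · intro u hu
    rw [Finset.mem_coe, Finset.mem_filter, Prod.mk.injEq] at hu
    obtain ⟨_, h7, h8⟩ := hu
    funext i
    fin_cases i
    · rfl
    · rfl
    · exact h8.symm
    · exact h7.symm
  · intro p _
    rfl

lemma sq_filter_le (hl2 : l ≠ 2) (k c : ZMod l) (hk : k ≠ 0) :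
    ((univ : Finset (ZMod l)).filter (fun w => k * w ^ 2 = c)).card ≤ 2 := by
  have h : (univ : Finset (ZMod l)).filter (fun w => k * w ^ 2 = c) = (univ : Finset (ZMod l)).filter (fun w => w ^ 2 = c / k) := by
    apply Finset.filter_congr
    intro w _
    rw [eq_div_iff hk, mul_comm]
  rw [h]
  exact card_sqrt_le hl2 _

lemma NS_bound (hl2 : l ≠ 2) (hl3 : l ≠ 3) (n t : ZMod l) :
    |((NS l n t).card : ℝ) - (l : ℝ) ^ 2| ≤ 15 * ((l : ℝ) * Real.sqrt l) := by
  classical
  have h2 := two_ne hl2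
  have h3 : (3 : ZMod l) ≠ 0 := by
    intro h
    have h1 : ((3 : ℕ) : ZMod l) = 0 := by exact_mod_cast h
    rw [ZMod.natCast_eq_zero_iff] at h1
    exact hl3 ((Nat.prime_dvd_prime_iff_eq Fact.out Nat.prime_three).1 h1)
  have hl1 : (1 : ℝ) ≤ l := by
    have := (Fact.out : l.Prime).one_lt
    exact_mod_cast this.le
  have hs1 : (1 : ℝ) ≤ Real.sqrt l := by
    rw [show (1 : ℝ) = Real.sqrt 1 by simp]
    exact Real.sqrt_le_sqrt hl1
  have hsp : 0 ≤ Real.sqrt l := by linarith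
  have hcard : ((NS l n t).card : ℝ) - (l : ℝ) ^ 2 =
      (∑ w : ZMod l, ∑ z : ZMod l, (quadraticChar (ZMod l) (Aq n t w z) : ℝ)) +
      (∑ w : ZMod l, ∑ z : ZMod l, (quadraticChar (ZMod l) (Bq n t w z) : ℝ)) +
      ∑ w : ZMod l, ∑ z : ZMod l, (quadraticChar (ZMod l) (Aq n t w z * Bq n t w z) : ℝ) := by
    have h := NS_card hl2 n t
    have h' : ((NS l n t).card : ℝ) = ∑ w : ZMod l, ∑ z : ZMod l,
        ((quadraticChar (ZMod l) (Aq n t w z) : ℝ) + 1) * ((quadraticChar (ZMod l) (Bq n t w z) : ℝ) + 1) := by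
      exact_mod_cast congrArg (fun x : ℤ => (x : ℝ)) h
    rw [h']
    have h6 : (l : ℝ) ^ 2 = ∑ w : ZMod l, ∑ z : ZMod l, (1 : ℝ) := by
      simp [ZMod.card]; ring
    rw [h6, ← Finset.sum_sub_distrib, ← Finset.sum_add_distrib, ← Finset.sum_add_distrib]
    apply Finset.sum_congr rfl
    intro w _
    rw [← Finset.sum_sub_distrib, ← Finset.sum_add_distrib, ← Finset.sum_add_distrib]
    apply Finset.sum_congr rfl
    intro z _
    rw [map_mul]
    push_cast
    ring
  have hA : |∑ w : ZMod l, ∑ z : ZMod l, (quadraticChar (ZMod l) (Aq n t w z) : ℝ)| ≤ l * Real.sqrt l + 2 * l := by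
    refine double_sum (fun w z => Aq n t w z) (univ.filter (fun w => 2 * w ^ 2 = -((3 * n - t) / 2))) 2
      (sq_filter_le hl2 _ _ h2) _ hsp ?_
    intro w hw
    rw [Finset.mem_filter, not_and] at hw
    have hw' := hw (Finset.mem_univ w)
    apply quad_sum hl2
    intro h
    apply hw'
    linear_combination h
  have hB : |∑ w : ZMod l, ∑ z : ZMod l, (quadraticChar (ZMod l) (Bq n t w z) : ℝ)| ≤ l * Real.sqrt l + 2 * l := by
    refine double_sum (fun w z => Bq n t w z) (univ.filter (fun w => (3 / 2) * w ^ 2 = -((n - t) / 4))) 2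
      (sq_filter_le hl2 _ _ (div_ne_zero h3 h2)) _ hsp ?_
    intro w hw
    rw [Finset.mem_filter, not_and] at hw
    have hw' := hw (Finset.mem_univ w)
    have h7 : ∑ z : ZMod l, (quadraticChar (ZMod l) (Bq n t w z) : ℝ) =
        (quadraticChar (ZMod l) (-2) : ℝ) * ∑ z : ZMod l, (quadraticChar (ZMod l) (z ^ 2 + ((n - t) / 4 + 3 / 2 * w ^ 2)) : ℝ) := by
      rw [Finset.mul_sum]
      apply Finset.sum_congr rfl
      intro z _
      unfold Bq
      rw [map_mul]
      push_cast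
      rfl
    rw [h7, abs_mul]
    have h8 : |(quadraticChar (ZMod l) (-2) : ℝ)| ≤ 1 := by
      rcases quadraticChar_dichotomy (F := ZMod l) (a := -2) (neg_ne_zero.2 h2) with h9 | h9 <;> rw [h9] <;> simp
    have h9 := quad_sum hl2 ((n - t) / 4 + 3 / 2 * w ^ 2) (by
      intro h
      apply hw'
      linear_combination h)
    calc _ ≤ 1 * Real.sqrt l := by
          apply mul_le_mul h8 h9 (abs_nonneg _) zero_le_one
      _ = _ := one_mul _
  have hAB : |∑ w : ZMod l, ∑ z : ZMod l, (quadraticChar (ZMod l) (Aq n t w z * Bq n t w z) : ℝ)| ≤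
      l * (3 * Real.sqrt l) + (6 : ℕ) * l := by
    refine double_sum (fun w z => Aq n t w z * Bq n t w z)
      ((univ.filter (fun w => 2 * w ^ 2 = -((3 * n - t) / 2)) ∪ univ.filter (fun w => (3 / 2) * w ^ 2 = -((n - t) / 4))) ∪
        univ.filter (fun w => (1 / 2) * w ^ 2 = (n - t) / 4 - (3 * n - t) / 2)) 6
      ?_ _ (by positivity) ?_
    · refine (Finset.card_union_le _ _).trans ?_
      have e1 := Finset.card_union_le (univ.filter (fun w : ZMod l => 2 * w ^ 2 = -((3 * n - t) / 2)))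
        (univ.filter (fun w : ZMod l => (3 / 2) * w ^ 2 = -((n - t) / 4)))
      have e2 := sq_filter_le hl2 2 (-((3 * n - t) / 2)) h2
      have e3 := sq_filter_le hl2 (3 / 2) (-((n - t) / 4)) (div_ne_zero h3 h2)
      have e4 := sq_filter_le hl2 (1 / 2) ((n - t) / 4 - (3 * n - t) / 2) (div_ne_zero one_ne_zero h2)
      omega
    · intro w hw
      simp only [Finset.mem_union, Finset.mem_filter, Finset.mem_univ, true_and, not_or] at hw
      obtain ⟨⟨hw1, hw2⟩, hw3⟩ := hw
      have h7 : ∑ z : ZMod l, (quadraticChar (ZMod l) (Aq n t w z * Bq n t w z) : ℝ) =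
          (quadraticChar (ZMod l) (-2) : ℝ) * ∑ z : ZMod l, (quadraticChar (ZMod l)
            ((z ^ 2 + ((3 * n - t) / 2 + 2 * w ^ 2)) * (z ^ 2 + ((n - t) / 4 + 3 / 2 * w ^ 2))) : ℝ) := by
        rw [Finset.mul_sum]
        apply Finset.sum_congr rfl
        intro z _
        have e : Aq n t w z * Bq n t w z = -2 * ((z ^ 2 + ((3 * n - t) / 2 + 2 * w ^ 2)) * (z ^ 2 + ((n - t) / 4 + 3 / 2 * w ^ 2))) := by
          unfold Aq Bq
          ring
        rw [e, map_mul]
        push_cast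
        rfl
      show |∑ z : ZMod l, (quadraticChar (ZMod l) (Aq n t w z * Bq n t w z) : ℝ)| ≤ _
      rw [h7, abs_mul]
      have h8 : |(quadraticChar (ZMod l) (-2) : ℝ)| ≤ 1 := by
        rcases quadraticChar_dichotomy (F := ZMod l) (a := -2) (neg_ne_zero.2 h2) with h9 | h9 <;> rw [h9] <;> simp
      have h9 := quart_sum hl2 ((3 * n - t) / 2 + 2 * w ^ 2) ((n - t) / 4 + 3 / 2 * w ^ 2)
        (fun h => hw1 (by linear_combination h)) (fun h => hw2 (by linear_combination h))
        (fun h => hw3 (by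
          have e : (2 : ZMod l) * 2⁻¹ = 1 := mul_inv_cancel₀ h2
          linear_combination h + 2 * w ^ 2 * e))
      calc _ ≤ 1 * (3 * Real.sqrt l) := by
            apply mul_le_mul h8 h9 (abs_nonneg _) zero_le_one
        _ = _ := one_mul _
  rw [hcard]
  have t1 := abs_add_le ((∑ w : ZMod l, ∑ z : ZMod l, (quadraticChar (ZMod l) (Aq n t w z) : ℝ)) +
      (∑ w : ZMod l, ∑ z : ZMod l, (quadraticChar (ZMod l) (Bq n t w z) : ℝ)))
      (∑ w : ZMod l, ∑ z : ZMod l, (quadraticChar (ZMod l) (Aq n t w z * Bq n t w z) : ℝ))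
  have t2 := abs_add_le (∑ w : ZMod l, ∑ z : ZMod l, (quadraticChar (ZMod l) (Aq n t w z) : ℝ))
      (∑ w : ZMod l, ∑ z : ZMod l, (quadraticChar (ZMod l) (Bq n t w z) : ℝ))
  have t3 : (l : ℝ) ≤ l * Real.sqrt l := le_mul_of_one_le_right (by linarith) hs1
  push_cast at hAB
  linarith

end Pool.Agent.U310.FS
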