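import Pool.Agent.U310.FS.Cnt
import Pool.Agent.W65.FS.Sieve

set_option autoImplicit false
set_option maxHeartbeats 4000000
open Finset

namespace Pool.Agent.U310.FS
open Pool.Agent.W65.FS

open Classical in
lemma Gl_filter_card (n l : ℕ) [Fact l.Prime] (Q : (Fin 4 → ZMod l) → Prop) :
    ((Gl n l).filter (fun c => Q (fun i => (c i : ZMod l)))).card =
      (univ.filter (fun u : Fin 4 → ZMod l => (∑ i, u i ^ 2 = (n : ZMod l) ∧ u ≠ 0) ∧ Q u)).card := by
  have hlp : l.Prime := Fact.out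
  have hl0 : (0 : ℤ) < l := by exact_mod_cast hlp.pos
  apply Finset.card_nbij' (fun c i => ((c i : ℤ) : ZMod l)) (fun u i => ((u i).val : ℤ))
  · intro c hc
    rw [Finset.mem_coe, Finset.mem_filter, mem_Gl] at hc
    obtain ⟨⟨h1, h2, i, h3⟩, h4⟩ := hc
    rw [Finset.mem_coe, Finset.mem_filter]
    refine ⟨Finset.mem_univ _, ⟨?_, ?_⟩, h4⟩
    · have := (ZMod.intCast_zmod_eq_zero_iff_dvd _ l).2 h2
      push_cast at this
      exact sub_eq_zero.1 this
    · intro h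
      apply h3
      rw [← ZMod.intCast_zmod_eq_zero_iff_dvd]
      exact congrFun h i
  · intro u hu
    rw [Finset.mem_coe, Finset.mem_filter] at hu
    obtain ⟨_, ⟨h1, h2⟩, h3⟩ := hu
    rw [Finset.mem_coe, Finset.mem_filter, mem_Gl]
    have e : (fun i => (((u i).val : ℤ) : ZMod l)) = u := by
      funext i
      push_cast
      exact ZMod.natCast_zmod_val (u i)
    refine ⟨⟨fun i => ⟨by positivity, ?_⟩, ?_, ?_⟩, ?_⟩
    · have := ZMod.val_lt (u i)
      show ((u i).val : ℤ) < l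
      exact_mod_cast this
    · rw [← ZMod.intCast_zmod_eq_zero_iff_dvd]
      push_cast
      simp only [ZMod.natCast_zmod_val]
      rw [h1, sub_self]
    · by_contra h
      push Not at h
      apply h2
      funext i
      have := (ZMod.intCast_zmod_eq_zero_iff_dvd _ l).2 (h i)
      push_cast at this
      rw [ZMod.natCast_zmod_val] at this
      exact this
    · rw [e]; exact h3
  · intro c hc
    rw [Finset.mem_coe, Finset.mem_filter, mem_Gl] at hc
    obtain ⟨⟨h1, _⟩, _⟩ := hc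
    funext i
    show (((c i : ZMod l)).val : ℤ) = c i
    rw [ZMod.val_intCast]
    exact Int.emod_eq_of_lt (h1 i).1 (h1 i).2
  · intro u _
    funext i
    show ((((u i).val : ℤ)) : ZMod l) = u i
    push_cast
    exact ZMod.natCast_zmod_val (u i)

/-- the number of classes -/
lemma Gl_bound (n l : ℕ) (hlp : l.Prime) (hl2 : l ≠ 2) :
    (l : ℝ) ^ 3 - l ≤ ((Gl n l).card : ℝ) ∧ ((Gl n l).card : ℝ) ≤ (l : ℝ) ^ 3 + (l : ℝ) ^ 2 := by
  classical
  refine ⟨count_lower l hlp hl2 n, ?_⟩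
  have : Fact l.Prime := ⟨hlp⟩
  have : NeZero l := ⟨hlp.ne_zero⟩
  have h1 := Gl_filter_card n l (fun _ => True)
  simp only [and_true, Finset.filter_true] at h1
  have hl0 : (0 : ℝ) < l := by exact_mod_cast hlp.pos
  have h2 := count_quad l (hlp.odd_of_ne_two hl2) (n : ZMod l)
  set S := univ.filter (fun u : Fin 4 → ZMod l => ∑ i, u i ^ 2 = (n : ZMod l)) with hS
  have h3 : (S.card : ℝ) * l = (l : ℝ) ^ 4 + (l : ℝ) ^ 2 * ((if (n : ZMod l) = 0 then (l : ℝ) else 0) - 1) := by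
    have h3 : (((S.card : ℝ) * l : ℝ) : ℂ) = (((l : ℝ) ^ 4 + (l : ℝ) ^ 2 * ((if (n : ZMod l) = 0 then (l : ℝ) else 0) - 1) : ℝ) : ℂ) := by
      push_cast
      rw [h2]
      split_ifs <;> push_cast <;> ring
    exact_mod_cast h3
  have h4 : (Gl n l).card ≤ S.card := by
    rw [h1]
    apply Finset.card_le_card
    intro u hu
    rw [Finset.mem_filter] at hu
    rw [hS, Finset.mem_filter]
    exact ⟨Finset.mem_univ _, hu.2.1⟩
  have h5 : (S.card : ℝ) * l ≤ ((l : ℝ) ^ 3 + (l : ℝ) ^ 2) * l := by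
    rw [h3]
    have : (if (n : ZMod l) = 0 then (l : ℝ) else 0) ≤ l := by split_ifs <;> linarith
    nlinarith [sq_nonneg (l : ℝ)]
  have h6 : (S.card : ℝ) ≤ (l : ℝ) ^ 3 + (l : ℝ) ^ 2 := le_of_mul_le_mul_right h5 hl0
  have h7 : ((Gl n l).card : ℝ) ≤ S.card := by exact_mod_cast h4
  linarith

/-- the number of bad classes -/
lemma Bl_bound (n l : ℕ) (hlp : l.Prime) (hl2 : l ≠ 2) (hl3 : l ≠ 3) :
    |((Bl ff n l).card : ℝ) - 2 * (l : ℝ) ^ 2| ≤ 31 * ((l : ℝ) * Real.sqrt l) := by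
  classical
  have : Fact l.Prime := ⟨hlp⟩
  have h2 := two_ne (l := l) hl2
  have hl1 : (1 : ℝ) ≤ l := by exact_mod_cast hlp.one_lt.le
  have hs1 : (1 : ℝ) ≤ Real.sqrt l := by
    rw [show (1 : ℝ) = Real.sqrt 1 by simp]
    exact Real.sqrt_le_sqrt hl1
  -- values
  obtain ⟨q, hq⟩ : ∃ q : (Fin 4 → ZMod l) → ZMod l, q = fun u => u 0 ^ 2 + 3 * u 1 ^ 2 + 5 * u 2 ^ 2 + 7 * u 3 ^ 2 := ⟨_, rfl⟩
  have hval : ∀ c : Fin 4 → ℤ, (l : ℤ) ∣ ff c ↔ (q (fun i => (c i : ZMod l)) = 0 ∨ q (fun i => (c i : ZMod l)) = 2) := by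
    intro c
    rw [← ZMod.intCast_zmod_eq_zero_iff_dvd]
    unfold ff pf
    push_cast
    rw [mul_eq_zero, hq, sub_eq_zero]
  have h1 : Bl ff n l = (Gl n l).filter (fun c => (q (fun i => (c i : ZMod l)) = 0 ∨ q (fun i => (c i : ZMod l)) = 2)) := by
    unfold Bl
    apply Finset.filter_congr
    intro c _
    exact hval c
  have h3 : (Bl ff n l).card = (univ.filter (fun u : Fin 4 → ZMod l => (∑ i, u i ^ 2 = (n : ZMod l) ∧ u ≠ 0) ∧
      (q u = 0 ∨ q u = 2))).card := by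
    rw [h1]
    convert Gl_filter_card n l (fun u => q u = 0 ∨ q u = 2) using 2
    · ext c
      simp only [Finset.mem_filter]
    · ext c
      simp only [Finset.mem_filter]
  have h4 : univ.filter (fun u : Fin 4 → ZMod l => (∑ i, u i ^ 2 = (n : ZMod l) ∧ u ≠ 0) ∧ (q u = 0 ∨ q u = 2)) =
      (NS l n 0).erase 0 ∪ NS l n 2 := by
    ext u
    rw [Finset.mem_filter, Finset.mem_union, Finset.mem_erase, NS, NS, Finset.mem_filter, Finset.mem_filter, hq]
    constructor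
    · rintro ⟨_, ⟨h5, h6⟩, h7 | h7⟩
      · exact Or.inl ⟨h6, Finset.mem_univ _, h5, h7⟩
      · exact Or.inr ⟨Finset.mem_univ _, h5, h7⟩
    · rintro (⟨h6, _, h5, h7⟩ | ⟨_, h5, h7⟩)
      · exact ⟨Finset.mem_univ _, ⟨h5, h6⟩, Or.inl h7⟩
      · refine ⟨Finset.mem_univ _, ⟨h5, ?_⟩, Or.inr h7⟩
        rintro rfl
        simp at h7
        exact h2 h7.symm
  have hdisj : Disjoint ((NS l n 0).erase 0) (NS l (n : ZMod l) 2) := by
    rw [Finset.disjoint_left]
    intro u hu hu'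
    rw [Finset.mem_erase, NS, Finset.mem_filter] at hu
    rw [NS, Finset.mem_filter] at hu'
    have := hu.2.2.2.symm.trans hu'.2.2
    exact h2 this.symm
  rw [h4, Finset.card_union_of_disjoint hdisj] at h3
  have h5 := NS_bound (l := l) hl2 hl3 (n : ZMod l) 0
  have h6 := NS_bound (l := l) hl2 hl3 (n : ZMod l) 2
  have h7 : ((NS l (n : ZMod l) 0).card : ℝ) - 1 ≤ ((NS l (n : ZMod l) 0).erase 0).card := by
    have := Finset.pred_card_le_card_erase (s := NS l (n : ZMod l) 0) (a := 0)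
    have h8 : (NS l (n : ZMod l) 0).card ≤ ((NS l (n : ZMod l) 0).erase 0).card + 1 := by omega
    have h9 : ((NS l (n : ZMod l) 0).card : ℝ) ≤ ((NS l (n : ZMod l) 0).erase 0).card + 1 := by exact_mod_cast h8
    linarith
  have h8 : (((NS l (n : ZMod l) 0).erase 0).card : ℝ) ≤ (NS l (n : ZMod l) 0).card := by
    exact_mod_cast Finset.card_erase_le
  have h9 : ((Bl ff n l).card : ℝ) = (((NS l (n : ZMod l) 0).erase 0).card : ℝ) + (NS l (n : ZMod l) 2).card := by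
    exact_mod_cast h3
  rw [h9]
  have h10 : (1 : ℝ) ≤ l * Real.sqrt l := by nlinarith
  rw [abs_le] at h5 h6 ⊢
  constructor <;> linarith [h5.1, h5.2, h6.1, h6.2]

/-- the density of the bad classes is `2 / l + O(l^(-3/2))` -/
lemma gg_bound' (n l : ℕ) (hlp : l.Prime) (hl2 : l ≠ 2) (hl3 : l ≠ 3) :
    |gg ff n l - 2 / l| ≤ 66 / ((l : ℝ) * Real.sqrt l) := by
  have hl4 : 5 ≤ l := by
    have h := hlp.two_le
    rcases Nat.lt_or_ge l 5 with h5 | h5
    · interval_cases l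
      · exact absurd rfl hl2
      · exact absurd rfl hl3
      · exact absurd hlp (by norm_num)
    · exact h5
  have hl5 : (5 : ℝ) ≤ l := by exact_mod_cast hl4
  have hl0 : (0 : ℝ) < l := by linarith
  have hs0 : 0 < Real.sqrt l := Real.sqrt_pos.2 hl0
  have hss : Real.sqrt l * Real.sqrt l = l := Real.mul_self_sqrt hl0.le
  have hs1 : (1 : ℝ) ≤ Real.sqrt l := by
    rw [show (1 : ℝ) = Real.sqrt 1 by simp]
    exact Real.sqrt_le_sqrt (by linarith)
  obtain ⟨h1, h2⟩ := Gl_bound n l hlp hl2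
  have h3 := Bl_bound n l hlp hl2 hl3
  have hG : (l : ℝ) ^ 3 / 2 ≤ (Gl n l).card := by nlinarith [sq_nonneg (l : ℝ)]
  have hG0 : (0 : ℝ) < (Gl n l).card := by
    have : 0 < (l : ℝ) ^ 3 / 2 := by positivity
    linarith
  have e : gg ff n l - 2 / l = (l * ((Bl ff n l).card : ℝ) - 2 * (Gl n l).card) / (l * (Gl n l).card) := by
    unfold gg
    field_simp
  rw [e, abs_div, abs_of_pos (show (0 : ℝ) < l * (Gl n l).card by positivity), div_le_div_iff₀ (by positivity) (by positivity)]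
  have h4 : |(l : ℝ) * ((Bl ff n l).card : ℝ) - 2 * (Gl n l).card| ≤ 33 * (l ^ 2 * Real.sqrt l) := by
    rw [abs_le] at h3 ⊢
    have e1 : 0 ≤ (l : ℝ) ^ 2 * (Real.sqrt l - 1) := mul_nonneg (by positivity) (by linarith)
    have e2 : 0 ≤ (l : ℝ) * ((Bl ff n l).card - 2 * l ^ 2 + 31 * (l * Real.sqrt l)) := mul_nonneg hl0.le (by linarith [h3.1])
    have e3 : 0 ≤ (l : ℝ) * (31 * (l * Real.sqrt l) - ((Bl ff n l).card - 2 * l ^ 2)) := mul_nonneg hl0.le (by linarith [h3.2])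
    constructor <;> nlinarith
  have h5 : 33 * ((l : ℝ) ^ 2 * Real.sqrt l) * (l * Real.sqrt l) ≤ 66 * (l * ((Gl n l).card : ℝ)) := by
    have : 33 * ((l : ℝ) ^ 2 * Real.sqrt l) * (l * Real.sqrt l) = 33 * l ^ 3 * (Real.sqrt l * Real.sqrt l) := by ring
    rw [this, hss]
    nlinarith
  calc |(l : ℝ) * ((Bl ff n l).card : ℝ) - 2 * (Gl n l).card| * (l * Real.sqrt l) ≤ 33 * (l ^ 2 * Real.sqrt l) * (l * Real.sqrt l) := by gcongr
    _ ≤ _ := h5

end Pool.Agent.U310.FS
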