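import Pool.Agent.W65.FS.Final
import Pool.Agent.TH423.SH.FLLP

/-!
# The fundamental lemma of the sieve for primitive representations as a sum of four squares
-/

set_option autoImplicit false
open Finset

namespace Pool.Agent.U310.FS
open Pool.Agent.W65.FS

/-- the primes from `3` to `z` which do not divide `M` -/
noncomputable def pr (z M : ℕ) : Finset ℕ := by
  classical
  exact (Icc 3 z).filter (fun l => l.Prime ∧ ¬ l ∣ M)

lemma mem_pr (z M l : ℕ) : l ∈ pr z M ↔ (3 ≤ l ∧ l ≤ z) ∧ l.Prime ∧ ¬ l ∣ M := by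
  unfold pr
  rw [Finset.mem_filter, Finset.mem_Icc]

/-- the primitive representations in the class of `v` modulo `M` for which `f` has no prime factor `l`, `3 ≤ l ≤ z`, `l ∤ M` -/
noncomputable def sft (f : (Fin 4 → ℤ) → ℤ) (n M : ℕ) (v : Fin 4 → ℤ) (z : ℕ) : Finset (Fin 4 → ℤ) := by
  classical
  exact (prc n M v).filter (fun X => ∀ l ∈ pr z M, ¬ (l : ℤ) ∣ f X)

lemma mem_sft (f : (Fin 4 → ℤ) → ℤ) (n M : ℕ) (v : Fin 4 → ℤ) (z : ℕ) (X : Fin 4 → ℤ) :
    X ∈ sft f n M v z ↔ X ∈ prc n M v ∧ ∀ l ∈ pr z M, ¬ (l : ℤ) ∣ f X := by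
  unfold sft
  rw [Finset.mem_filter]

lemma exists_J (z : ℕ) : ∃ J : ℕ, z ≤ 2 ^ 2 ^ J ∧ 2 ^ 2 ^ J ≤ 2 + z ^ 2 := by
  classical
  have hex : ∃ J : ℕ, z ≤ 2 ^ 2 ^ J := by
    refine ⟨z, ?_⟩
    have h1 : z < 2 ^ z := Nat.lt_two_pow_self
    have h2 : 2 ^ z < 2 ^ 2 ^ z := Nat.pow_lt_pow_right (by norm_num) Nat.lt_two_pow_self
    omega
  refine ⟨Nat.find hex, Nat.find_spec hex, ?_⟩
  rcases Nat.eq_zero_or_pos (Nat.find hex) with h | h
  · rw [h]; norm_num
  · obtain ⟨J, hJ⟩ : ∃ J, Nat.find hex = J + 1 := ⟨Nat.find hex - 1, by omega⟩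
    have h1 := Nat.find_min hex (m := J) (by omega)
    push Not at h1
    rw [hJ, pow_succ, pow_mul]
    have : (2 ^ 2 ^ J) ^ 2 ≤ z ^ 2 := Nat.pow_le_pow_left h1.le 2
    omega

lemma dvd_f_iff (f : (Fin 4 → ℤ) → ℤ)
    (hcong : ∀ (l : ℕ) (X Y : Fin 4 → ℤ), (∀ i, (l : ℤ) ∣ X i - Y i) → (l : ℤ) ∣ f X - f Y) (l : ℕ) (X : Fin 4 → ℤ) :
    (l : ℤ) ∣ f X ↔ (l : ℤ) ∣ f (red l X) := by
  have h := hcong l X (red l X) (red_dvd l X)
  constructor
  · intro h1
    have := dvd_sub h1 h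
    rwa [sub_sub_cancel] at this
  · intro h1
    have := dvd_add h h1
    rwa [sub_add_cancel] at this

lemma red_Bl_iff (f : (Fin 4 → ℤ) → ℤ)
    (hcong : ∀ (l : ℕ) (X Y : Fin 4 → ℤ), (∀ i, (l : ℤ) ∣ X i - Y i) → (l : ℤ) ∣ f X - f Y) (n M l : ℕ) (hl : l.Prime)
    (v X : Fin 4 → ℤ) (hX : X ∈ prc n M v) : red l X ∈ Bl f n l ↔ (l : ℤ) ∣ f X := by
  unfold prc at hX
  rw [Finset.mem_filter, mem_repsc] at hX
  rw [mem_Bl, dvd_f_iff f hcong l X]
  exact ⟨fun h => h.2, fun h => ⟨red_mem n l hl X hX.1.1 hX.2, h⟩⟩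

lemma red_Gl (n M l : ℕ) (hl : l.Prime) (v X : Fin 4 → ℤ) (hX : X ∈ prc n M v) : red l X ∈ Gl n l := by
  unfold prc at hX
  rw [Finset.mem_filter, mem_repsc] at hX
  exact red_mem n l hl X hX.1.1 hX.2

/-- the classes of `M` -/
lemma prc_eq (n M : ℕ) (hM0 : 0 < M) (hMs : Squarefree M) (v : Fin 4 → ℤ) :
    (prc n 1 0).filter (fun X => ∀ l ∈ M.primeFactors, red l X ∈ ({red l v} : Finset (Fin 4 → ℤ))) = prc n M v := by
  classical
  have hprod : ∏ l ∈ M.primeFactors, l = M := Nat.prod_primeFactors_of_squarefree hMs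
  ext X
  simp only [Finset.mem_filter, Finset.mem_singleton]
  unfold prc
  rw [Finset.mem_filter, Finset.mem_filter, mem_repsc, mem_repsc]
  have key : (∀ l ∈ M.primeFactors, red l X = red l v) ↔ ∀ i, (M : ℤ) ∣ X i - v i := by
    constructor
    · intro h i
      have h1 := (dvd_all 1 M.primeFactors (fun l hl => ⟨Nat.prime_of_mem_primeFactors hl, fun h =>
        (Nat.prime_of_mem_primeFactors hl).one_lt.ne' (Nat.dvd_one.1 h)⟩) (X i - v i)).2 ⟨by simp, fun l hl => ?_⟩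
      · rwa [one_mul, hprod] at h1
      · have h2 := congrFun (h l hl) i
        have h3 := red_dvd l X i
        have h4 := red_dvd l v i
        rw [h2] at h3
        have := dvd_sub h3 h4
        rwa [sub_sub_sub_cancel_right] at this
    · intro h l hl
      funext i
      unfold red
      have h1 : (l : ℤ) ∣ X i - v i := (Int.natCast_dvd_natCast.2 (Nat.dvd_of_mem_primeFactors hl)).trans (h i)
      exact (Int.emod_emod_of_dvd _ (dvd_refl _)).symm.trans (by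
        rw [Int.emod_emod_of_dvd _ (dvd_refl _)]
        exact (Int.emod_eq_emod_iff_emod_sub_eq_zero).2 (Int.emod_eq_zero_of_dvd h1))
  rw [key]
  constructor
  · rintro ⟨⟨⟨h1, _⟩, h2⟩, h3⟩
    exact ⟨⟨h1, h3⟩, h2⟩
  · rintro ⟨⟨h1, h3⟩, h2⟩
    exact ⟨⟨⟨h1, fun i => by simp⟩, h2⟩, h3⟩

/-- the number of primitive representations in a class -/
theorem class_law : ∃ C : ℝ, 0 < C ∧ ∀ (n M : ℕ), 1 ≤ n → 0 < M → Odd M → Squarefree M → ∀ v : Fin 4 → ℤ, Good n M v →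
    |((prc n M v).card : ℝ) - (preps n).card * ∏ l ∈ M.primeFactors, (1 / ((Gl n l).card : ℝ))| ≤
      C * (M : ℝ) ^ 15 * (n : ℝ) ^ (19 / 20 : ℝ) := by
  classical
  obtain ⟨C, hC, hdist⟩ := distribution
  refine ⟨C, hC, ?_⟩
  intro n M hn hM hMo hMs v hv
  have hG : ∀ l ∈ M.primeFactors, red l v ∈ Gl n l := by
    intro l hl
    have hlp := Nat.prime_of_mem_primeFactors hl
    have hl0 : (0 : ℤ) < l := by exact_mod_cast hlp.pos
    have hlM := Nat.dvd_of_mem_primeFactors hl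
    rw [mem_Gl]
    refine ⟨fun i => ⟨Int.emod_nonneg _ hl0.ne', Int.emod_lt_of_pos _ hl0⟩, ?_, ?_⟩
    · have h1 : (∑ i, red l v i ^ 2) - (n : ℤ) = ((∑ i, v i ^ 2) - n) - ∑ i, (v i - red l v i) * (v i + red l v i) := by
        simp only [Fin.sum_univ_four]
        ring
      rw [h1]
      apply dvd_sub ((Int.natCast_dvd_natCast.2 hlM).trans hv.1)
      exact Finset.dvd_sum fun i _ => (red_dvd l v i).mul_right _
    · obtain ⟨i, hi⟩ := hv.2 l hlp hlM
      refine ⟨i, fun h => hi ?_⟩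
      have := dvd_add (red_dvd l v i) h
      rwa [sub_add_cancel] at this
  have h1 := hdist n 1 hn one_pos odd_one squarefree_one 0 (good_one n) M.primeFactors
    (fun l hl => ⟨Nat.prime_of_mem_primeFactors hl, fun h => (Nat.prime_of_mem_primeFactors hl).one_lt.ne' (Nat.dvd_one.1 h),
      fun h => by
        have h2 := Nat.dvd_of_mem_primeFactors hl
        rw [h] at h2
        exact (Nat.not_even_iff_odd.2 hMo) (even_iff_two_dvd.2 h2), ⟨_, hG l hl⟩⟩)
    (fun l => {red l v}) (fun l hl => Finset.singleton_subset_iff.2 (hG l hl))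
  rw [prc_eq n M hM hMs v, prc_one] at h1
  simp only [Finset.card_singleton, Nat.cast_one, one_pow, mul_one] at h1
  rw [Nat.prod_primeFactors_of_squarefree hMs] at h1
  exact h1

end Pool.Agent.U310.FS
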