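import Pool.Agent.W65.FS.Local
import Pool.Agent.H341R2.WeilSharp

/-!
# Local counts for the pair of forms `|X|²` and `x² + 3y² + 5z² + 7w²`
-/

set_option autoImplicit false
set_option maxHeartbeats 4000000
open Finset Polynomial

namespace Pool.Agent.U310.FS

variable {l : ℕ} [Fact l.Prime]

/-- a separable polynomial of positive degree is not a constant times a square -/
lemma not_sq {F : Type*} [Field F] (f : F[X]) (hf : f.Separable) (hd : 1 ≤ f.natDegree) : ∀ (c : F) (h : F[X]), f ≠ C c * h ^ 2 := by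
  intro c h heq
  have hsq : Squarefree f := hf.squarefree
  have h1 : IsUnit h := hsq h ⟨C c, by rw [heq]; ring⟩
  rw [heq] at hd
  obtain ⟨u, hu, hu2⟩ := Polynomial.isUnit_iff.1 h1
  rw [← hu2, ← C_pow, ← C_mul, natDegree_C] at hd
  omega

lemma sep_quad {F : Type*} [Field F] (h2 : (2 : F) ≠ 0) (c : F) (hc : c ≠ 0) : (X ^ 2 + C c : F[X]).Separable := by
  rw [Polynomial.separable_def]
  refine ⟨C c⁻¹, C (-(2 * c)⁻¹) * X, ?_⟩
  have h1 : derivative (X ^ 2 + C c : F[X]) = C 2 * X := by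
    rw [derivative_add, derivative_X_sq, derivative_C, add_zero]
  rw [h1]
  have h3 : C c⁻¹ * (X ^ 2 + C c) + C (-(2 * c)⁻¹) * X * (C 2 * X) =
      (C (c⁻¹) + C (-(2 * c)⁻¹ * 2)) * X ^ 2 + C (c⁻¹ * c) := by
    simp only [C_mul]
    ring
  rw [h3, ← C_add, inv_mul_cancel₀ hc]
  have h4 : c⁻¹ + -(2 * c)⁻¹ * 2 = 0 := by
    field_simp
    ring
  rw [h4]
  simp

lemma chi_bound (hl2 : l ≠ 2) (f : (ZMod l)[X]) (hf : f.Separable) (hd : 1 ≤ f.natDegree) :
    |∑ x : ZMod l, (quadraticChar (ZMod l) (f.eval x) : ℝ)| ≤ (f.natDegree - 1) * Real.sqrt l := by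
  have h := Pool.Agent.H341R2.Sharp.weil_sharp (F := ZMod l) (by rw [ZMod.ringChar_zmod_n]; exact hl2) f hd (not_sq f hf hd)
  rwa [ZMod.card] at h

lemma two_ne (hl2 : l ≠ 2) : (2 : ZMod l) ≠ 0 := by
  intro h
  have h1 : ((2 : ℕ) : ZMod l) = 0 := by exact_mod_cast h
  rw [ZMod.natCast_eq_zero_iff] at h1
  exact hl2 ((Nat.prime_dvd_prime_iff_eq Fact.out Nat.prime_two).1 h1)

lemma quad_sum (hl2 : l ≠ 2) (c : ZMod l) (hc : c ≠ 0) :
    |∑ x : ZMod l, (quadraticChar (ZMod l) (x ^ 2 + c) : ℝ)| ≤ Real.sqrt l := by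
  have hd : (X ^ 2 + C c : (ZMod l)[X]).natDegree = 2 := by
    compute_degree!
  have h := chi_bound hl2 (X ^ 2 + C c) (sep_quad (two_ne hl2) c hc) (by rw [hd]; norm_num)
  rw [hd] at h
  simp only [eval_add, eval_pow, eval_X, eval_C] at h
  norm_num at h
  exact h

lemma quart_sum (hl2 : l ≠ 2) (a c : ZMod l) (ha : a ≠ 0) (hc : c ≠ 0) (hac : a ≠ c) :
    |∑ x : ZMod l, (quadraticChar (ZMod l) ((x ^ 2 + a) * (x ^ 2 + c)) : ℝ)| ≤ 3 * Real.sqrt l := by
  have hsep : ((X ^ 2 + C a) * (X ^ 2 + C c) : (ZMod l)[X]).Separable := by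
    refine (sep_quad (two_ne hl2) a ha).mul (sep_quad (two_ne hl2) c hc) ?_
    refine ⟨C (a - c)⁻¹, - C (a - c)⁻¹, ?_⟩
    have h1 : C (a - c)⁻¹ * (X ^ 2 + C a) + -C (a - c)⁻¹ * (X ^ 2 + C c) = C ((a - c)⁻¹ * (a - c)) := by
      simp only [C_mul, C_sub]
      ring
    rw [h1, inv_mul_cancel₀ (sub_ne_zero.2 hac)]
    simp
  have hd : ((X ^ 2 + C a) * (X ^ 2 + C c) : (ZMod l)[X]).natDegree = 4 := by
    have h1 : (X ^ 2 + C a : (ZMod l)[X]).natDegree = 2 := by compute_degree!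
    have h2 : (X ^ 2 + C c : (ZMod l)[X]).natDegree = 2 := by compute_degree!
    have n1 : (X ^ 2 + C a : (ZMod l)[X]) ≠ 0 := by
      intro h; rw [h] at h1; simp at h1
    have n2 : (X ^ 2 + C c : (ZMod l)[X]) ≠ 0 := by
      intro h; rw [h] at h2; simp at h2
    rw [natDegree_mul n1 n2, h1, h2]
  have h := chi_bound hl2 _ hsep (by rw [hd]; norm_num)
  rw [hd] at h
  simp only [eval_mul, eval_add, eval_pow, eval_X, eval_C] at h
  norm_num at h ⊢
  exact h

/-- trivial bound -/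
lemma triv_sum (g : ZMod l → ZMod l) : |∑ x : ZMod l, (quadraticChar (ZMod l) (g x) : ℝ)| ≤ l := by
  refine (Finset.abs_sum_le_sum_abs _ _).trans ?_
  have h1 : ∀ x ∈ (univ : Finset (ZMod l)), |(quadraticChar (ZMod l) (g x) : ℝ)| ≤ 1 := by
    intro x _
    rcases eq_or_ne (g x) 0 with h | h
    · rw [h]; simp
    · rcases quadraticChar_dichotomy h with h2 | h2 <;> rw [h2] <;> simp
  refine (Finset.sum_le_sum h1).trans ?_
  rw [Finset.sum_const, Finset.card_univ, ZMod.card]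
  simp

/-- square roots -/
lemma card_sqrt (hl2 : l ≠ 2) (a : ZMod l) :
    (((univ : Finset (ZMod l)).filter (fun x => x ^ 2 = a)).card : ℤ) = quadraticChar (ZMod l) a + 1 := by
  have h := quadraticChar_card_sqrts (F := ZMod l) (by rw [ZMod.ringChar_zmod_n]; exact hl2) a
  rw [← h]
  congr 2
  ext x
  simp

lemma card_sqrt_le (hl2 : l ≠ 2) (a : ZMod l) : ((univ : Finset (ZMod l)).filter (fun x => x ^ 2 = a)).card ≤ 2 := by
  have h := card_sqrt hl2 a
  have h1 : quadraticChar (ZMod l) a ≤ 1 := by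
    rcases eq_or_ne a 0 with h | h
    · rw [h]; simp
    · rcases quadraticChar_dichotomy h with h2 | h2 <;> rw [h2]; norm_num
  omega

/-- a double sum whose inner sums are small for all but few values of the outer variable -/
lemma double_sum (G : ZMod l → ZMod l → ZMod l) (B : Finset (ZMod l)) (k : ℕ) (hB : B.card ≤ k) (K : ℝ) (hK : 0 ≤ K)
    (h : ∀ w, w ∉ B → |∑ z : ZMod l, (quadraticChar (ZMod l) (G w z) : ℝ)| ≤ K) :
    |∑ w : ZMod l, ∑ z : ZMod l, (quadraticChar (ZMod l) (G w z) : ℝ)| ≤ l * K + k * l := by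
  classical
  refine (Finset.abs_sum_le_sum_abs _ _).trans ?_
  have h1 : ∀ w ∈ (univ : Finset (ZMod l)), |∑ z : ZMod l, (quadraticChar (ZMod l) (G w z) : ℝ)| ≤ K + (if w ∈ B then (l : ℝ) else 0) := by
    intro w _
    by_cases hw : w ∈ B
    · rw [if_pos hw]
      have := triv_sum (G w)
      linarith
    · rw [if_neg hw, add_zero]
      exact h w hw
  refine (Finset.sum_le_sum h1).trans ?_
  rw [Finset.sum_add_distrib, Finset.sum_const, Finset.card_univ, ZMod.card, nsmul_eq_mul, ← Finset.sum_filter,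
    Finset.filter_mem_eq_inter, Finset.univ_inter, Finset.sum_const, nsmul_eq_mul]
  have : (B.card : ℝ) ≤ k := by exact_mod_cast hB
  gcongr

end Pool.Agent.U310.FS
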