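import Pool.Agent.U310.FS.Law

set_option autoImplicit false
set_option maxHeartbeats 4000000
open Finset

namespace Pool.Agent.U310.FS
open Pool.Agent.W65.FS

lemma gg_le_one_sub (f : (Fin 4 → ℤ) → ℤ) (n l : ℕ) (hl : l.Prime)
    (hloc : ∃ c ∈ Gl n l, ¬ (l : ℤ) ∣ f c) : 1 / (l : ℝ) ^ 4 ≤ 1 - gg f n l ∧ 0 < ((Gl n l).card : ℝ) := by
  classical
  obtain ⟨c, hc, hfc⟩ := hloc
  have hG : 0 < (Gl n l).card := Finset.card_pos.2 ⟨c, hc⟩
  have hGr : (0 : ℝ) < (Gl n l).card := by exact_mod_cast hG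
  refine ⟨?_, hGr⟩
  have hlt : (Bl f n l).card + 1 ≤ (Gl n l).card := by
    have h1 : Bl f n l ⊂ Gl n l := by
      refine (Finset.ssubset_iff_of_subset (fun c hc => ((mem_Bl f n l c).1 hc).1)).2 ⟨c, hc, fun h => hfc ((mem_Bl f n l c).1 h).2⟩
    exact Finset.card_lt_card h1
  have hltr : ((Bl f n l).card : ℝ) + 1 ≤ (Gl n l).card := by exact_mod_cast hlt
  have h2 : ((Gl n l).card : ℝ) ≤ (l : ℝ) ^ 4 := by exact_mod_cast card_Gl_le n l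
  have h3 : 1 - gg f n l = (((Gl n l).card : ℝ) - (Bl f n l).card) / (Gl n l).card := by
    unfold gg
    field_simp
  rw [h3]
  calc 1 / (l : ℝ) ^ 4 ≤ 1 / ((Gl n l).card : ℝ) := one_div_le_one_div_of_le hGr h2
    _ ≤ _ := by
      gcongr
      linarith

lemma pow_le_of (y n δ : ℝ) (k : ℕ) (hn : 1 ≤ n) (hy : y = n ^ δ) (s : ℝ) (hk : k * δ ≤ s) : y ^ k ≤ n ^ s := by
  rw [hy, ← Real.rpow_natCast, ← Real.rpow_mul (by linarith)]
  apply Real.rpow_le_rpow_of_exponent_le hn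
  linarith

/-- **The fundamental lemma for primitive representations as a sum of four squares.** -/
theorem law (f : (Fin 4 → ℤ) → ℤ) (κ : ℕ)
    (hcong : ∀ (l : ℕ) (X Y : Fin 4 → ℤ), (∀ i, (l : ℤ) ∣ X i - Y i) → (l : ℤ) ∣ f X - f Y)
    (hbad : ∀ l : ℕ, l.Prime → l ≠ 2 → ∀ n : ℕ, (Bl f n l).card ≤ κ * l ^ 2)
    (hloc : ∀ l : ℕ, l.Prime → l ≠ 2 → ∀ n : ℕ, ∃ c ∈ Gl n l, ¬ (l : ℤ) ∣ f c)
    (ε : ℝ) (hε : 0 < ε) :
    ∃ δ : ℝ, 0 < δ ∧ ∃ n0 : ℕ, ∀ n : ℕ, Odd n → n0 ≤ n → ∀ M : ℕ, Odd M → Squarefree M → (M : ℝ) ≤ (n : ℝ) ^ δ →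
      ∀ v : Fin 4 → ℤ, Good n M v →
      |((prc n M v).card : ℝ) - (preps n).card * ∏ l ∈ M.primeFactors, (1 / ((Gl n l).card : ℝ))| ≤
        ε * ((preps n).card * ∏ l ∈ M.primeFactors, (1 / ((Gl n l).card : ℝ))) ∧
      ∀ z : ℕ, (z : ℝ) ≤ (n : ℝ) ^ δ →
        0 < ((prc n M v).card : ℝ) * ∏ l ∈ pr z M, (1 - gg f n l) ∧
        |((sft f n M v z).card : ℝ) - (prc n M v).card * ∏ l ∈ pr z M, (1 - gg f n l)| ≤
          ε * ((prc n M v).card * ∏ l ∈ pr z M, (1 - gg f n l)) := by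
  classical
  obtain ⟨C0, hC0, hFL⟩ := Pool.Agent.TH423.SH.fLemC
  obtain ⟨C, hC, hdist⟩ := distribution
  obtain ⟨C', hC', hcls⟩ := class_law
  obtain ⟨c1, hc1, hlow⟩ := preps_lower (1 / 100) (by norm_num)
  -- the parameter `b`
  obtain ⟨b0, hb0⟩ : ∃ b0 : ℕ, (1 / 2 : ℝ) ^ b0 ≤ ε / 2 := by
    obtain ⟨b0, h⟩ := exists_pow_lt_of_lt_one (show (0 : ℝ) < ε / 2 by linarith) (show (1 / 2 : ℝ) < 1 by norm_num)
    exact ⟨b0, h.le⟩
  obtain ⟨b, hb1, hb2⟩ : ∃ b : ℕ, C0 * (κ + 1) ≤ b ∧ (1 / 2 : ℝ) ^ b ≤ ε / 2 :=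
    ⟨C0 * (κ + 1) + b0, by omega, le_trans (pow_le_pow_of_le_one (by norm_num) (by norm_num) (by omega)) hb0⟩
  obtain ⟨z0, hz0⟩ : ∃ z0 : ℕ, z0 = C0 * (κ + 1) + 2 * κ + 10 := ⟨_, rfl⟩
  obtain ⟨M0, hM0⟩ : ∃ M0 : ℕ, M0 = ∏ l ∈ (Icc 3 z0).filter Nat.Prime, l := ⟨_, rfl⟩
  have hM0pos : 0 < M0 := by
    rw [hM0]; exact Finset.prod_pos fun l hl => (Finset.mem_filter.1 hl).2.pos
  have hM0r : (1 : ℝ) ≤ M0 := by exact_mod_cast hM0pos
  obtain ⟨E, hE⟩ : ∃ E : ℕ, E = 16 * (C0 * b) + 1 := ⟨_, rfl⟩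
  obtain ⟨δ, hδ⟩ : ∃ δ : ℝ, δ = 1 / (100 * (19 + 2 * E + 2 * κ : ℕ)) := ⟨_, rfl⟩
  have hden : (0 : ℝ) < ((19 + 2 * E + 2 * κ : ℕ) : ℝ) := by exact_mod_cast (by omega : 0 < 19 + 2 * E + 2 * κ)
  have hδ0 : 0 < δ := by rw [hδ]; positivity
  have hδk : ((19 + 2 * E + 2 * κ : ℕ) : ℝ) * δ ≤ 1 / 100 := by
    rw [hδ]
    have : ((19 + 2 * E + 2 * κ : ℕ) : ℝ) * (1 / (100 * ((19 + 2 * E + 2 * κ : ℕ) : ℝ))) = 1 / 100 := by
      field_simp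
    exact this.le
  obtain ⟨K1, hK1⟩ : ∃ K1 : ℝ, K1 = 2 * C' / c1 + C' / (ε * c1) := ⟨_, rfl⟩
  obtain ⟨K2, hK2⟩ : ∃ K2 : ℝ, K2 = 8 * C * (M0 : ℝ) ^ 19 * 3 ^ E * Real.exp (2 * κ) / (c1 * ε) := ⟨_, rfl⟩
  obtain ⟨n1, hn1⟩ := large_rpow K1 (3 / 100) (by norm_num)
  obtain ⟨n2, hn2⟩ := large_rpow K2 (3 / 100) (by norm_num)
  refine ⟨δ, hδ0, n1 + n2 + 1, ?_⟩
  intro n hno hnbig M hMo hMs hMδ v hv
  have hn : 1 ≤ n := hno.pos
  have hnr : (1 : ℝ) ≤ n := by exact_mod_cast hn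
  have hn0 : (0 : ℝ) < n := by linarith
  have hn1' := hn1 n (by omega)
  have hn2' := hn2 n (by omega)
  have hMpos : 0 < M := hMo.pos
  have hMr : (1 : ℝ) ≤ M := by exact_mod_cast hMpos
  obtain ⟨y, hy⟩ : ∃ y : ℝ, y = (n : ℝ) ^ δ := ⟨_, rfl⟩
  rw [← hy] at hMδ
  have hy1 : 1 ≤ y := by rw [hy]; exact Real.one_le_rpow hnr hδ0.le
  have hy0 : 0 < y := by linarith
  have hyk : ∀ k : ℕ, k ≤ 19 + 2 * E + 2 * κ → y ^ k ≤ (n : ℝ) ^ (1 / 100 : ℝ) := by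
    intro k hk
    refine pow_le_of y n δ k hnr hy _ (le_trans ?_ hδk)
    have : (k : ℝ) ≤ ((19 + 2 * E + 2 * κ : ℕ) : ℝ) := by exact_mod_cast hk
    gcongr
  have hsum : ∀ (a b c : ℝ), a + b = c → (n : ℝ) ^ a * (n : ℝ) ^ b = (n : ℝ) ^ c := by
    intro a b c h
    rw [← Real.rpow_add hn0, h]
  -- the number of primitive representations in the class
  obtain ⟨G, hG⟩ : ∃ G : ℝ, G = ∏ l ∈ M.primeFactors, (1 / ((Gl n l).card : ℝ)) := ⟨_, rfl⟩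
  have hGpos : 1 / (M : ℝ) ^ 4 ≤ G := by
    have h1 : ∏ l ∈ M.primeFactors, (1 / (l : ℝ) ^ 4) = 1 / (M : ℝ) ^ 4 := by
      rw [Finset.prod_div_distrib, Finset.prod_const_one, Finset.prod_pow, ← Nat.cast_prod,
        Nat.prod_primeFactors_of_squarefree hMs]
    rw [← h1, hG]
    apply Finset.prod_le_prod
    · intro l _; positivity
    · intro l hl
      have hlp := Nat.prime_of_mem_primeFactors hl
      have hl2 : l ≠ 2 := fun h => by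
        have h2 := Nat.dvd_of_mem_primeFactors hl
        rw [h] at h2
        exact (Nat.not_even_iff_odd.2 hMo) (even_iff_two_dvd.2 h2)
      have h2 := (gg_le_one_sub f n l hlp (hloc l hlp hl2 n)).2
      apply one_div_le_one_div_of_le h2
      exact_mod_cast card_Gl_le n l
  have hc := hcls n M hn hMpos hMo hMs v hv
  rw [← hG] at hc ⊢
  have hlow' := hlow n hno
  have h99 : (1 : ℝ) - 1 / 100 = 99 / 100 := by norm_num
  rw [h99] at hlow'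
  have hNG : c1 * (n : ℝ) ^ (99 / 100 : ℝ) / (M : ℝ) ^ 4 ≤ (preps n).card * G := by
    calc c1 * (n : ℝ) ^ (99 / 100 : ℝ) / (M : ℝ) ^ 4 = (c1 * (n : ℝ) ^ (99 / 100 : ℝ)) * (1 / (M : ℝ) ^ 4) := by ring
      _ ≤ _ := by gcongr
  have herr1 : ∀ t : ℝ, 0 < t → C' / (t * c1) ≤ (n : ℝ) ^ (3 / 100 : ℝ) →
      C' * (M : ℝ) ^ 15 * (n : ℝ) ^ (19 / 20 : ℝ) ≤ t * (c1 * (n : ℝ) ^ (99 / 100 : ℝ) / (M : ℝ) ^ 4) := by
    intro t ht h
    rw [← mul_div_assoc, le_div_iff₀ (by positivity)]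
    rw [div_le_iff₀ (by positivity)] at h
    have h1 : (M : ℝ) ^ 19 ≤ (n : ℝ) ^ (1 / 100 : ℝ) := (pow_le_pow_left₀ (by linarith) hMδ 19).trans (hyk 19 (by omega))
    calc C' * (M : ℝ) ^ 15 * (n : ℝ) ^ (19 / 20 : ℝ) * (M : ℝ) ^ 4 = C' * (M : ℝ) ^ 19 * (n : ℝ) ^ (19 / 20 : ℝ) := by ring
      _ ≤ ((n : ℝ) ^ (3 / 100 : ℝ) * (t * c1)) * (n : ℝ) ^ (1 / 100 : ℝ) * (n : ℝ) ^ (19 / 20 : ℝ) := by gcongr
      _ = (t * c1) * (((n : ℝ) ^ (3 / 100 : ℝ) * (n : ℝ) ^ (1 / 100 : ℝ)) * (n : ℝ) ^ (19 / 20 : ℝ)) := by ring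
      _ = t * (c1 * (n : ℝ) ^ (99 / 100 : ℝ)) := by
        rw [hsum (3 / 100) (1 / 100) (4 / 100) (by norm_num), hsum (4 / 100) (19 / 20) (99 / 100) (by norm_num)]
        ring
  have hfirst : |((prc n M v).card : ℝ) - (preps n).card * G| ≤ ε * ((preps n).card * G) := by
    refine hc.trans ((herr1 ε hε ?_).trans (by gcongr))
    refine le_trans ?_ hn1'
    rw [hK1]
    have : 0 ≤ 2 * C' / c1 := by positivity
    linarith
  refine ⟨hfirst, ?_⟩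
  have hmass : c1 / 2 * (n : ℝ) ^ (99 / 100 : ℝ) / (M : ℝ) ^ 4 ≤ ((prc n M v).card : ℝ) := by
    have h1 := (abs_le.1 hc).1
    have h2 := herr1 (1 / 2) (by norm_num) (by
      refine le_trans ?_ hn1'
      rw [hK1]
      have h3 : C' / (1 / 2 * c1) = 2 * C' / c1 := by field_simp
      rw [h3]
      have : 0 ≤ C' / (ε * c1) := by positivity
      linarith)
    have h4 : c1 / 2 * (n : ℝ) ^ (99 / 100 : ℝ) / (M : ℝ) ^ 4 =
        c1 * (n : ℝ) ^ (99 / 100 : ℝ) / (M : ℝ) ^ 4 - 1 / 2 * (c1 * (n : ℝ) ^ (99 / 100 : ℝ) / (M : ℝ) ^ 4) := by ring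
    rw [h4]
    linarith
  have hprc0 : (0 : ℝ) < (prc n M v).card := lt_of_lt_of_le (by positivity) hmass
  intro z hzδ
  rw [← hy] at hzδ
  -- the primes
  have hprp : ∀ l ∈ pr z M, l.Prime ∧ ¬ l ∣ M ∧ l ≠ 2 ∧ l ≤ z := by
    intro l hl
    rw [mem_pr] at hl
    exact ⟨hl.2.1, hl.2.2, by omega, hl.1.2⟩
  obtain ⟨T0, hT0⟩ : ∃ T0, T0 = (pr z M).filter (fun l => l ≤ z0) := ⟨_, rfl⟩
  obtain ⟨P, hP⟩ : ∃ P, P = (pr z M).filter (fun l => ¬ l ≤ z0) := ⟨_, rfl⟩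
  have hsplit : ∏ l ∈ pr z M, (1 - gg f n l) = (∏ l ∈ T0, (1 - gg f n l)) * ∏ l ∈ P, (1 - gg f n l) := by
    rw [hT0, hP, Finset.prod_filter_mul_prod_filter_not]
  have hT0p : ∀ l ∈ T0, l ∈ pr z M ∧ l ≤ z0 := by
    intro l hl
    rw [hT0, Finset.mem_filter] at hl
    exact hl
  have hPp : ∀ l ∈ P, l ∈ pr z M ∧ z0 < l := by
    intro l hl
    rw [hP, Finset.mem_filter] at hl
    exact ⟨hl.1, by omega⟩
  have hT0prod : ∏ l ∈ T0, l ≤ M0 := by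
    rw [hM0]
    apply Finset.prod_le_prod_of_subset_of_one_le'
    · intro l hl
      obtain ⟨h1, h2⟩ := hT0p l hl
      rw [mem_pr] at h1
      rw [Finset.mem_filter, Finset.mem_Icc]
      exact ⟨⟨h1.1.1, h2⟩, h1.2.1⟩
    · intro l hl _
      exact (Finset.mem_filter.1 hl).2.one_lt.le
  have hV0 : 1 / (M0 : ℝ) ^ 4 ≤ ∏ l ∈ T0, (1 - gg f n l) := by
    have h1 : 1 / (M0 : ℝ) ^ 4 ≤ ∏ l ∈ T0, (1 / (l : ℝ) ^ 4) := by
      rw [Finset.prod_div_distrib, Finset.prod_const_one, Finset.prod_pow]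
      have h2 : (0 : ℝ) < ∏ l ∈ T0, (l : ℝ) := Finset.prod_pos fun l hl => by exact_mod_cast (hprp l (hT0p l hl).1).1.pos
      have h3 : ∏ l ∈ T0, (l : ℝ) ≤ M0 := by
        rw [← Nat.cast_prod]
        exact_mod_cast hT0prod
      exact one_div_le_one_div_of_le (by positivity) (pow_le_pow_left₀ h2.le h3 4)
    refine h1.trans (Finset.prod_le_prod (fun l _ => by positivity) ?_)
    intro l hl
    have h2 := hprp l (hT0p l hl).1
    exact (gg_le_one_sub f n l h2.1 (hloc l h2.1 h2.2.2.1 n)).1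
  have hV00 : 0 < ∏ l ∈ T0, (1 - gg f n l) := lt_of_lt_of_le (by positivity) hV0
  have hgb : ∀ p ∈ P, 0 ≤ gg f n p ∧ gg f n p ≤ κ / ((p : ℝ) - 1) := fun p hp =>
    gg_bound f κ n p (hprp p (hPp p hp).1).1 (hprp p (hPp p hp).1).2.2.1
      (hbad p (hprp p (hPp p hp).1).1 (hprp p (hPp p hp).1).2.2.1 n)
  rcases Nat.lt_or_ge z 3 with hz3 | hz3
  · -- no primes
    have hemp : pr z M = ∅ := by
      apply Finset.eq_empty_of_forall_notMem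
      intro l hl
      rw [mem_pr] at hl
      omega
    have hs : sft f n M v z = prc n M v := by
      unfold sft
      apply Finset.filter_true_of_mem
      intro X _ l hl
      rw [hemp] at hl
      exact absurd hl (Finset.notMem_empty l)
    rw [hemp, hs, Finset.prod_empty, mul_one, sub_self, abs_zero]
    exact ⟨hprc0, by positivity⟩
  have hz1 : 1 ≤ z := by omega
  have hzr : (1 : ℝ) ≤ z := by exact_mod_cast hz1
  have hV : Real.exp (-(2 * κ)) * (z : ℝ) ^ (-(2 * κ : ℝ)) ≤ ∏ p ∈ P, (1 - gg f n p) := by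
    apply prod_lower κ z hz1 P (fun p hp => ⟨(hprp p (hPp p hp).1).1.two_le, (hprp p (hPp p hp).1).2.2.2⟩) (gg f n)
      (fun p hp => (hgb p hp).1) (fun p hp => (hgb p hp).2)
    intro p hp
    refine (hgb p hp).2.trans ?_
    have h1 : (z0 : ℝ) < p := by exact_mod_cast (hPp p hp).2
    have h2 : 2 * (κ : ℝ) + 10 ≤ z0 := by
      rw [hz0]; push_cast
      have : (0 : ℝ) ≤ C0 * (κ + 1) := by positivity
      linarith
    rw [div_le_div_iff₀ (by linarith) (by norm_num)]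
    linarith
  have hVz : Real.exp (-(2 * κ)) * (y ^ (2 * κ))⁻¹ ≤ ∏ p ∈ P, (1 - gg f n p) := by
    refine le_trans ?_ hV
    have h1 : (z : ℝ) ^ (-(2 * κ : ℝ)) = ((z : ℝ) ^ (2 * κ))⁻¹ := by
      rw [Real.rpow_neg (by linarith)]
      congr 1
      rw [← Real.rpow_natCast]
      push_cast
      rfl
    rw [h1]
    gcongr
  have hVP0 : 0 < ∏ p ∈ P, (1 - gg f n p) := lt_of_lt_of_le (by positivity) hVz
  obtain ⟨V, hVdef⟩ : ∃ V : ℝ, V = ∏ l ∈ pr z M, (1 - gg f n l) := ⟨_, rfl⟩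
  have hVpos : 0 < V := by rw [hVdef, hsplit]; positivity
  rw [← hVdef]
  refine ⟨by positivity, ?_⟩
  -- the scale
  obtain ⟨J, hJ1, hJ2⟩ := exists_J z
  obtain ⟨Z, hZ⟩ : ∃ Z : ℕ, Z = 2 ^ 2 ^ J := ⟨_, rfl⟩
  have hZ2 : 2 ≤ Z := by
    have h1 : 1 ≤ 2 ^ J := Nat.one_le_two_pow
    rw [hZ]
    calc 2 = 2 ^ 1 := rfl
      _ ≤ 2 ^ 2 ^ J := Nat.pow_le_pow_right (by norm_num) h1
  have hZy : (Z : ℝ) ≤ 3 * y ^ 2 := by
    have h1 : (Z : ℝ) ≤ 2 + (z : ℝ) ^ 2 := by rw [← hZ] at hJ2; exact_mod_cast hJ2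
    have h2 : (z : ℝ) ^ 2 ≤ y ^ 2 := pow_le_pow_left₀ (by linarith) hzδ 2
    have h3 : 1 ≤ y ^ 2 := one_le_pow₀ hy1
    linarith
  -- the sieve
  obtain ⟨A, hA⟩ : ∃ A : Finset (Fin 4 → ℤ), A = (prc n M v).filter (fun X => ∀ l ∈ T0, ¬ (l : ℤ) ∣ f X) := ⟨_, rfl⟩
  have hAp : ∀ X ∈ A, X ∈ prc n M v := by
    intro X hX
    rw [hA, Finset.mem_filter] at hX
    exact hX.1
  obtain ⟨e, he⟩ := exists_injective_nat (Fin 4 → ℤ)
  obtain ⟨Ω, hΩ⟩ : ∃ Ω : Finset ℕ, Ω = A.map ⟨e, he⟩ := ⟨_, rfl⟩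
  obtain ⟨hit, hhit⟩ : ∃ hit : ℕ → ℕ → Prop, hit = fun (p m : ℕ) => ∀ X, e X = m → (p : ℤ) ∣ f X := ⟨_, rfl⟩
  have hhit' : ∀ p X, hit p (e X) ↔ (p : ℤ) ∣ f X := by
    intro p X
    rw [hhit]
    constructor
    · intro h; exact h X rfl
    · intro h Y hY
      rw [he hY]; exact h
  obtain ⟨err, herr⟩ : ∃ err : Finset ℕ → ℝ, err = fun T => C * (M : ℝ) ^ 11 * ((M0 : ℝ) * ((∏ l ∈ T, l : ℕ) : ℝ)) ^ 15 *
      (n : ℝ) ^ (19 / 20 : ℝ) := ⟨_, rfl⟩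
  obtain ⟨AA, hAA⟩ : ∃ AA : ℝ, AA = (prc n M v).card * ∏ l ∈ T0, (1 - gg f n l) := ⟨_, rfl⟩
  have hAA0 : 0 ≤ AA := by rw [hAA]; positivity
  have hdisj : ∀ T ⊆ P, Disjoint T0 T := by
    intro T hT
    rw [Finset.disjoint_left]
    intro l hl hl'
    have h1 := (hT0p l hl).2
    have h2 := (hPp l (hT hl')).2
    omega
  have hTcount : ∀ T ⊆ P, |∑ m ∈ Ω.filter (fun m => ∀ p ∈ T, hit p m), (1 : ℝ) - AA * ∏ p ∈ T, gg f n p| ≤ err T := by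
    intro T hT
    have hTp : ∀ l ∈ T0 ∪ T, l ∈ pr z M := by
      intro l hl
      rcases Finset.mem_union.1 hl with h | h
      · exact (hT0p l h).1
      · exact (hPp l (hT h)).1
    have h1 := hdist n M hn hMpos hMo hMs v hv (T0 ∪ T)
      (fun l hl => ⟨(hprp l (hTp l hl)).1, (hprp l (hTp l hl)).2.1, (hprp l (hTp l hl)).2.2.1, by
        obtain ⟨c, hc, _⟩ := hloc l (hprp l (hTp l hl)).1 (hprp l (hTp l hl)).2.2.1 n
        exact ⟨c, hc⟩⟩)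
      (fun l => if l ∈ T0 then Gl n l \ Bl f n l else Bl f n l) (fun l _ => by
        split_ifs
        · exact Finset.sdiff_subset
        · exact fun c hc => ((mem_Bl f n l c).1 hc).1)
    have h2 : ∑ m ∈ Ω.filter (fun m => ∀ p ∈ T, hit p m), (1 : ℝ) =
        ((((prc n M v).filter (fun X => ∀ l ∈ T0 ∪ T, red l X ∈ (if l ∈ T0 then Gl n l \ Bl f n l else Bl f n l))).card : ℕ) : ℝ) := by
      rw [Finset.sum_const, nsmul_eq_mul, mul_one, hΩ, Finset.filter_map, Finset.card_map]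
      congr 2
      ext X
      simp only [Finset.mem_filter, Function.comp, Function.Embedding.coeFn_mk, hhit']
      rw [hA, Finset.mem_filter]
      constructor
      · rintro ⟨⟨hX, h3⟩, h4⟩
        refine ⟨hX, fun l hl => ?_⟩
        by_cases hl0 : l ∈ T0
        · rw [if_pos hl0, Finset.mem_sdiff, red_Bl_iff f hcong n M l (hprp l (hTp l hl)).1 v X hX]
          exact ⟨red_Gl n M l (hprp l (hTp l hl)).1 v X hX, h3 l hl0⟩
        · rw [if_neg hl0, red_Bl_iff f hcong n M l (hprp l (hTp l hl)).1 v X hX]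
          exact h4 l ((Finset.mem_union.1 hl).resolve_left hl0)
      · rintro ⟨hX, h3⟩
        refine ⟨⟨hX, fun l hl => ?_⟩, fun l hl => ?_⟩
        · have h4 := h3 l (Finset.mem_union_left _ hl)
          rw [if_pos hl, Finset.mem_sdiff, red_Bl_iff f hcong n M l (hprp l (hT0p l hl).1).1 v X hX] at h4
          exact h4.2
        · have h4 := h3 l (Finset.mem_union_right _ hl)
          have hl0 : l ∉ T0 := fun h => Finset.disjoint_left.1 (hdisj T hT) h hl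
          rw [if_neg hl0, red_Bl_iff f hcong n M l (hprp l (hPp l (hT hl)).1).1 v X hX] at h4
          exact h4
    have h3 : ∏ l ∈ T0 ∪ T, ((((if l ∈ T0 then Gl n l \ Bl f n l else Bl f n l).card : ℕ) : ℝ) / (Gl n l).card) =
        (∏ l ∈ T0, (1 - gg f n l)) * ∏ l ∈ T, gg f n l := by
      rw [Finset.prod_union (hdisj T hT)]
      congr 1
      · apply Finset.prod_congr rfl
        intro l hl
        rw [if_pos hl, Finset.card_sdiff_of_subset (fun c hc => ((mem_Bl f n l c).1 hc).1),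
          Nat.cast_sub (Finset.card_le_card (fun c hc => ((mem_Bl f n l c).1 hc).1))]
        have h4 := (gg_le_one_sub f n l (hprp l (hT0p l hl).1).1 (hloc l (hprp l (hT0p l hl).1).1 (hprp l (hT0p l hl).1).2.2.1 n)).2
        unfold gg
        field_simp
      · apply Finset.prod_congr rfl
        intro l hl
        have hl0 : l ∉ T0 := fun h => Finset.disjoint_left.1 (hdisj T hT) h hl
        rw [if_neg hl0]
        rfl
    rw [h2, hAA]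
    rw [h3] at h1
    have h4 : ((prc n M v).card : ℝ) * ((∏ l ∈ T0, (1 - gg f n l)) * ∏ l ∈ T, gg f n l) =
        (prc n M v).card * (∏ l ∈ T0, (1 - gg f n l)) * ∏ p ∈ T, gg f n p := by ring
    rw [h4] at h1
    refine h1.trans ?_
    rw [herr]
    simp only
    have h5 : ((∏ l ∈ T0 ∪ T, l : ℕ) : ℝ) ≤ M0 * ((∏ l ∈ T, l : ℕ) : ℝ) := by
      rw [Finset.prod_union (hdisj T hT)]
      push_cast
      have h6 : ((∏ l ∈ T0, l : ℕ) : ℝ) ≤ M0 := by exact_mod_cast hT0prod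
      push_cast at h6
      gcongr
    gcongr
  have hfl := hFL κ b J z0 P (gg f n) hb1 (by omega)
    (fun p hp => ⟨(hprp p (hPp p hp).1).1, (hPp p hp).2, (hprp p (hPp p hp).1).2.2.2.trans hJ1⟩)
    hgb Ω (fun _ => 1) hit AA err (fun _ _ => zero_le_one) hAA0 (fun T hT _ => hTcount T hT)
  have hScard : ∑ m ∈ Ω.filter (fun m => ∀ p ∈ P, ¬ hit p m), (1 : ℝ) = ((sft f n M v z).card : ℝ) := by
    rw [Finset.sum_const, nsmul_eq_mul, mul_one, hΩ, Finset.filter_map, Finset.card_map]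
    congr 2
    ext X
    simp only [Finset.mem_filter, Function.comp, Function.Embedding.coeFn_mk, hhit']
    rw [mem_sft, hA, Finset.mem_filter]
    constructor
    · rintro ⟨⟨hX, h3⟩, h4⟩
      refine ⟨hX, fun l hl => ?_⟩
      by_cases hl0 : l ≤ z0
      · exact h3 l (by rw [hT0, Finset.mem_filter]; exact ⟨hl, hl0⟩)
      · exact h4 l (by rw [hP, Finset.mem_filter]; exact ⟨hl, hl0⟩)
    · rintro ⟨hX, h3⟩
      exact ⟨⟨hX, fun l hl => h3 l (hT0p l hl).1⟩, fun l hl => h3 l (hPp l hl).1⟩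
  have hAAV : AA * ∏ p ∈ P, (1 - gg f n p) = (prc n M v).card * V := by
    rw [hAA, hVdef, hsplit]; ring
  rw [hScard, hAAV] at hfl
  refine hfl.trans ?_
  -- the error term
  have hErr : ((J : ℝ) + 2) * ∑ T ∈ P.powerset.filter (fun T : Finset ℕ => ∏ p ∈ T, p ≤ (2 ^ 2 ^ J) ^ (C0 * b)), err T ≤
      2 * C * (M0 : ℝ) ^ 15 * (M : ℝ) ^ 11 * ((Z : ℝ) ^ E * (n : ℝ) ^ (19 / 20 : ℝ)) := by
    rw [← hZ]
    have h1 : ∀ T ∈ P.powerset.filter (fun T : Finset ℕ => ∏ p ∈ T, p ≤ Z ^ (C0 * b)), err T ≤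
        C * (M : ℝ) ^ 11 * (M0 * (Z : ℝ) ^ (C0 * b)) ^ 15 * (n : ℝ) ^ (19 / 20 : ℝ) := by
      intro T hT
      have h2 := (Finset.mem_filter.1 hT).2
      have h3 : ((∏ l ∈ T, l : ℕ) : ℝ) ≤ (Z : ℝ) ^ (C0 * b) := by exact_mod_cast h2
      rw [herr]
      simp only
      gcongr
    have h2 := Finset.sum_le_sum h1
    rw [Finset.sum_const, nsmul_eq_mul] at h2
    have h3 := card_sets P (fun p hp => (hprp p (hPp p hp).1).1) (Z ^ (C0 * b))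
    have h4 : (((P.powerset.filter (fun T : Finset ℕ => ∏ p ∈ T, p ≤ Z ^ (C0 * b))).card : ℕ) : ℝ) ≤ (Z : ℝ) ^ (C0 * b) := by
      exact_mod_cast h3
    have hJz : (J : ℝ) + 2 ≤ 2 * Z := by
      have h5 : J + 2 ≤ 2 * Z := by
        have h6 : J < 2 ^ J := Nat.lt_two_pow_self
        have h7 : 2 ^ J < 2 ^ 2 ^ J := Nat.lt_two_pow_self
        rw [hZ]
        omega
      exact_mod_cast h5
    calc ((J : ℝ) + 2) * ∑ T ∈ P.powerset.filter (fun T : Finset ℕ => ∏ p ∈ T, p ≤ Z ^ (C0 * b)), err T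
        ≤ (2 * Z) * ((Z : ℝ) ^ (C0 * b) * (C * (M : ℝ) ^ 11 * (M0 * (Z : ℝ) ^ (C0 * b)) ^ 15 * (n : ℝ) ^ (19 / 20 : ℝ))) := by
          apply mul_le_mul hJz _ _ (by positivity)
          · exact h2.trans (by gcongr)
          · apply Finset.sum_nonneg
            intro T _
            rw [herr]
            positivity
      _ = _ := by
        rw [hE, pow_add, pow_one, mul_pow, ← pow_mul]
        have : (Z : ℝ) ^ (16 * (C0 * b)) = (Z : ℝ) ^ (C0 * b) * (Z : ℝ) ^ (C0 * b * 15) := by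
          rw [← pow_add]; congr 1; ring
        rw [this]
        ring
  have hmain : 2 * C * (M0 : ℝ) ^ 15 * (M : ℝ) ^ 11 * ((Z : ℝ) ^ E * (n : ℝ) ^ (19 / 20 : ℝ)) ≤
      ε / 2 * ((prc n M v).card * V) := by
    have h1 : (c1 / 2 * (n : ℝ) ^ (99 / 100 : ℝ) / y ^ 4) * ((1 / (M0 : ℝ) ^ 4) * (Real.exp (-(2 * κ)) * (y ^ (2 * κ))⁻¹)) ≤
        (prc n M v).card * V := by
      rw [hVdef, hsplit]
      have h2 : c1 / 2 * (n : ℝ) ^ (99 / 100 : ℝ) / y ^ 4 ≤ (prc n M v).card := by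
        refine le_trans ?_ hmass
        gcongr
      gcongr
    refine le_trans ?_ (mul_le_mul_of_nonneg_left h1 (by positivity))
    have h3 : (Z : ℝ) ^ E ≤ 3 ^ E * y ^ (2 * E) := by
      calc (Z : ℝ) ^ E ≤ (3 * y ^ 2) ^ E := pow_le_pow_left₀ (by positivity) hZy E
        _ = _ := by rw [mul_pow, ← pow_mul]
    have h4 : (M : ℝ) ^ 11 ≤ y ^ 11 := pow_le_pow_left₀ (by linarith) hMδ 11
    have h5 : 2 * C * (M0 : ℝ) ^ 15 * (M : ℝ) ^ 11 * ((Z : ℝ) ^ E * (n : ℝ) ^ (19 / 20 : ℝ)) ≤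
        2 * C * (M0 : ℝ) ^ 15 * y ^ 11 * ((3 ^ E * y ^ (2 * E)) * (n : ℝ) ^ (19 / 20 : ℝ)) := by gcongr
    refine h5.trans ?_
    have h6 : Real.exp (-(2 * (κ : ℝ))) = (Real.exp (2 * κ))⁻¹ := by rw [Real.exp_neg]
    rw [h6]
    have h7 : ε / 2 * (c1 / 2 * (n : ℝ) ^ (99 / 100 : ℝ) / y ^ 4 * (1 / (M0 : ℝ) ^ 4 * ((Real.exp (2 * κ))⁻¹ * (y ^ (2 * κ))⁻¹))) =
        (ε * c1 * (n : ℝ) ^ (99 / 100 : ℝ)) / (4 * y ^ 4 * (M0 : ℝ) ^ 4 * Real.exp (2 * κ) * y ^ (2 * κ)) := by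
      field_simp
      ring
    rw [h7, le_div_iff₀ (by positivity)]
    have h8 : 2 * C * (M0 : ℝ) ^ 15 * y ^ 11 * (3 ^ E * y ^ (2 * E) * (n : ℝ) ^ (19 / 20 : ℝ)) *
        (4 * y ^ 4 * (M0 : ℝ) ^ 4 * Real.exp (2 * κ) * y ^ (2 * κ)) =
        (8 * C * (M0 : ℝ) ^ 19 * 3 ^ E * Real.exp (2 * κ)) * y ^ (15 + 2 * E + 2 * κ) * (n : ℝ) ^ (19 / 20 : ℝ) := by
      rw [pow_add, pow_add]
      ring
    rw [h8]
    have h9 : 8 * C * (M0 : ℝ) ^ 19 * 3 ^ E * Real.exp (2 * κ) ≤ (n : ℝ) ^ (3 / 100 : ℝ) * (c1 * ε) := by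
      rw [hK2, div_le_iff₀ (by positivity)] at hn2'
      exact hn2'
    have h10 := hyk (15 + 2 * E + 2 * κ) (by omega)
    calc (8 * C * (M0 : ℝ) ^ 19 * 3 ^ E * Real.exp (2 * κ)) * y ^ (15 + 2 * E + 2 * κ) * (n : ℝ) ^ (19 / 20 : ℝ)
        ≤ ((n : ℝ) ^ (3 / 100 : ℝ) * (c1 * ε)) * (n : ℝ) ^ (1 / 100 : ℝ) * (n : ℝ) ^ (19 / 20 : ℝ) := by gcongr
      _ = (c1 * ε) * (((n : ℝ) ^ (3 / 100 : ℝ) * (n : ℝ) ^ (1 / 100 : ℝ)) * (n : ℝ) ^ (19 / 20 : ℝ)) := by ring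
      _ = _ := by
        rw [hsum (3 / 100) (1 / 100) (4 / 100) (by norm_num), hsum (4 / 100) (19 / 20) (99 / 100) (by norm_num)]
        ring
  have hprcV : 0 ≤ (prc n M v).card * V := by positivity
  have := mul_le_mul_of_nonneg_right hb2 hprcV
  linarith

end Pool.Agent.U310.FS
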