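import Pool.Agent.U310.FS.Dens
import Pool.Agent.U310.FS.Main
import Pool.Agent.Helper559.Mertens

set_option autoImplicit false
set_option maxHeartbeats 4000000
open Finset

namespace Pool.Agent.U310.FS
open Pool.Agent.W65.FS

lemma exp_neg_hundred : Real.exp (-100) ≤ 1 / 30 ^ 4 := by
  have h1 : Real.exp (-100) = (Real.exp (-1)) ^ 100 := by
    rw [← Real.exp_nat_mul]; norm_num
  have h2 : Real.exp (-1) ≤ 1 / 2 := by
    rw [Real.exp_neg, one_div]
    apply inv_anti₀ (by norm_num)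
    have := Real.exp_one_gt_d9
    linarith
  rw [h1]
  calc (Real.exp (-1)) ^ 100 ≤ (1 / 2 : ℝ) ^ 100 := pow_le_pow_left₀ (Real.exp_pos _).le h2 100
    _ ≤ 1 / 30 ^ 4 := by norm_num

/-- the factor of a prime -/
lemma factor_bound (n l : ℕ) (hlp : l.Prime) (hl3 : 3 ≤ l) :
    Real.exp (-(2 / l) - 90000 * (1 / ((l : ℝ) * Real.sqrt l))) ≤ 1 - gg ff n l ∧
      1 - gg ff n l ≤ Real.exp (-(2 / l) + 90000 * (1 / ((l : ℝ) * Real.sqrt l))) := by
  have hl2 : l ≠ 2 := by omega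
  have hl0 : (0 : ℝ) < l := by exact_mod_cast hlp.pos
  have hl1 : (3 : ℝ) ≤ l := by exact_mod_cast hl3
  have hs0 : 0 < Real.sqrt l := Real.sqrt_pos.2 hl0
  have hss : Real.sqrt l * Real.sqrt l = l := Real.mul_self_sqrt hl0.le
  have hs1 : (1 : ℝ) ≤ Real.sqrt l := by
    rw [show (1 : ℝ) = Real.sqrt 1 by simp]
    exact Real.sqrt_le_sqrt (by linarith)
  have hsl : Real.sqrt l ≤ l := by nlinarith
  obtain ⟨hlow, hGpos⟩ := gg_le_one_sub ff n l hlp (local_ff l hlp hl2 n)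
  have hg0 : 0 ≤ gg ff n l := (gg_bound ff 8 n l hlp hl2 (Bl_card l hlp hl2 n)).1
  rcases Nat.lt_or_ge 30 l with h30 | h30
  · -- large primes
    have hl31 : (31 : ℝ) ≤ l := by exact_mod_cast h30
    have hb := gg_bound' n l hlp hl2 (by omega)
    have e66 : 66 / ((l : ℝ) * Real.sqrt l) = 66 * (1 / ((l : ℝ) * Real.sqrt l)) := by ring
    rw [e66, abs_le] at hb
    obtain ⟨t, ht⟩ : ∃ t : ℝ, t = 1 / ((l : ℝ) * Real.sqrt l) := ⟨_, rfl⟩
    rw [← ht] at hb ⊢
    have ht0 : 0 < t := by rw [ht]; positivity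
    have hs5 : (11 / 2 : ℝ) ≤ Real.sqrt l := by
      apply Real.le_sqrt_of_sq_le
      linarith
    have ht1 : t ≤ 1 / l * (2 / 11) := by
      have h1 : 1 / Real.sqrt l ≤ 2 / 11 := by
        rw [div_le_div_iff₀ hs0 (by norm_num)]
        linarith
      have h2 : t = 1 / (l : ℝ) * (1 / Real.sqrt l) := by
        rw [ht]
        field_simp
      rw [h2]
      gcongr
    have hinv : 1 / (l : ℝ) ≤ 1 / 31 := one_div_le_one_div_of_le (by norm_num) hl31
    have h2l : 2 / (l : ℝ) = 2 * (1 / l) := by ring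
    rw [h2l] at hb ⊢
    obtain ⟨u, hu⟩ : ∃ u : ℝ, u = 1 / (l : ℝ) := ⟨_, rfl⟩
    rw [← hu] at hb hinv ht1 ⊢
    have hu0 : 0 < u := by rw [hu]; positivity
    have hghalf : gg ff n l ≤ 1 / 2 := by linarith [hb.2]
    have hgu : gg ff n l ≤ 68 * u := by linarith [hb.2]
    -- `u ^ 2 ≤ t`
    have hut : u ^ 2 ≤ t := by
      rw [hu, ht, div_pow, one_pow]
      apply one_div_le_one_div_of_le (by positivity)
      rw [pow_two]
      gcongr
    constructor
    · have hpos : 0 < 1 - gg ff n l := by linarith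
      have h1 := Real.one_sub_inv_le_log_of_pos hpos
      have h2 : -(gg ff n l) - 2 * (gg ff n l) ^ 2 ≤ 1 - (1 - gg ff n l)⁻¹ := by
        have h3 : 1 - (1 - gg ff n l)⁻¹ = -(gg ff n l) / (1 - gg ff n l) := by
          field_simp
          ring
        rw [h3, le_div_iff₀ hpos]
        nlinarith [mul_nonneg (sq_nonneg (gg ff n l)) (show 0 ≤ 1 - 2 * gg ff n l by linarith)]
      have h3 : (gg ff n l) ^ 2 ≤ 4624 * t := by
        calc (gg ff n l) ^ 2 ≤ (68 * u) ^ 2 := pow_le_pow_left₀ hg0 hgu 2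
          _ = 4624 * u ^ 2 := by ring
          _ ≤ 4624 * t := by gcongr
      rw [← Real.le_log_iff_exp_le hpos]
      linarith [hb.2]
    · have h1 := Real.one_sub_le_exp_neg (gg ff n l)
      refine h1.trans (Real.exp_le_exp.2 ?_)
      linarith [hb.1]
  · -- small primes
    have hl30 : (l : ℝ) ≤ 30 := by exact_mod_cast h30
    have ht : 1 / 900 ≤ 1 / ((l : ℝ) * Real.sqrt l) := by
      apply one_div_le_one_div_of_le (by positivity)
      calc (l : ℝ) * Real.sqrt l ≤ l * l := by gcongr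
        _ ≤ 30 * 30 := by gcongr
        _ = 900 := by norm_num
    constructor
    · refine le_trans ?_ hlow
      calc Real.exp (-(2 / l) - 90000 * (1 / ((l : ℝ) * Real.sqrt l))) ≤ Real.exp (-100) := by
            apply Real.exp_le_exp.2
            have : 0 ≤ 2 / (l : ℝ) := by positivity
            linarith
        _ ≤ 1 / 30 ^ 4 := exp_neg_hundred
        _ ≤ 1 / (l : ℝ) ^ 4 := one_div_le_one_div_of_le (by positivity) (pow_le_pow_left₀ hl0.le hl30 4)
    · have h1 : 1 - gg ff n l ≤ 1 := by linarith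
      refine h1.trans ?_
      have h2 : 2 / (l : ℝ) ≤ 1 := by
        rw [div_le_one hl0]; linarith
      have h3 : (0 : ℝ) ≤ -(2 / l) + 90000 * (1 / ((l : ℝ) * Real.sqrt l)) := by linarith
      exact Real.one_le_exp h3

lemma summable_sqrt : Summable (fun n : ℕ => 1 / ((n : ℝ) * Real.sqrt n)) := by
  have h := Real.summable_one_div_nat_rpow.2 (show (1 : ℝ) < 3 / 2 by norm_num)
  refine h.congr fun n => ?_
  rcases Nat.eq_zero_or_pos n with rfl | hn
  · simp
  · have hn0 : (0 : ℝ) < n := by exact_mod_cast hn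
    rw [Real.sqrt_eq_rpow]
    congr 1
    rw [show (3 / 2 : ℝ) = 1 + 1 / 2 by norm_num, Real.rpow_add hn0, Real.rpow_one]

lemma pr_sum (z : ℕ) (hz : 2 ≤ z) : ∑ l ∈ pr z 1, (1 : ℝ) / l = Pool.Agent.Helper559.S z - 1 / 2 := by
  classical
  have h1 : (Icc 1 z).filter Nat.Prime = insert 2 (pr z 1) := by
    ext l
    rw [Finset.mem_filter, Finset.mem_Icc, Finset.mem_insert, mem_pr]
    constructor
    · rintro ⟨⟨h1, h2⟩, h3⟩
      rcases Nat.lt_or_ge l 3 with h4 | h4
      · left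
        have := h3.two_le
        omega
      · right
        exact ⟨⟨h4, h2⟩, h3, fun h => h3.one_lt.ne' (Nat.dvd_one.1 h)⟩
    · rintro (rfl | ⟨⟨h1, h2⟩, h3, _⟩)
      · exact ⟨⟨by norm_num, hz⟩, Nat.prime_two⟩
      · exact ⟨⟨by omega, h2⟩, h3⟩
  unfold Pool.Agent.Helper559.S
  rw [h1, Finset.sum_insert]
  · push_cast
    ring
  · intro h
    rw [mem_pr] at h
    omega

/-- the order of magnitude of the product -/
theorem prod_order : ∃ c C : ℝ, 0 < c ∧ 0 < C ∧ ∀ n z : ℕ, 3 ≤ z →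
    c / Real.log z ^ 2 ≤ ∏ l ∈ pr z 1, (1 - gg ff n l) ∧ ∏ l ∈ pr z 1, (1 - gg ff n l) ≤ C / Real.log z ^ 2 := by
  classical
  obtain ⟨K, hK, hS⟩ := Pool.Agent.Helper559.mertens
  obtain ⟨Z, hZ⟩ : ∃ Z : ℝ, Z = ∑' n : ℕ, 1 / ((n : ℝ) * Real.sqrt n) := ⟨_, rfl⟩
  refine ⟨Real.exp (1 - 2 * K - 90000 * Z), Real.exp (1 + 2 * K + 90000 * Z), Real.exp_pos _, Real.exp_pos _, ?_⟩
  intro n z hz
  have hz3 : (3 : ℝ) ≤ z := by exact_mod_cast hz
  have hlog : 0 < Real.log z := Real.log_pos (by linarith)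
  have hl := pr_sum z (by omega)
  have hS' := hS z (by omega)
  rw [abs_le] at hS'
  have ht : ∑ l ∈ pr z 1, 1 / ((l : ℝ) * Real.sqrt l) ≤ Z := by
    rw [hZ]
    exact summable_sqrt.sum_le_tsum _ (fun i _ => by positivity)
  have hpr : ∀ l ∈ pr z 1, l.Prime ∧ 3 ≤ l := by
    intro l hl
    rw [mem_pr] at hl
    exact ⟨hl.2.1, hl.1.1⟩
  have hlogsq : Real.exp (-(2 * Real.log (Real.log z))) = 1 / Real.log z ^ 2 := by
    rw [Real.exp_neg, mul_comm, Real.exp_mul, Real.exp_log hlog, one_div]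
    norm_num
  have e1 : ∑ l ∈ pr z 1, (2 : ℝ) / l = 2 * ∑ l ∈ pr z 1, (1 : ℝ) / l := by
    rw [Finset.mul_sum]
    apply Finset.sum_congr rfl
    intro l _
    ring
  constructor
  · calc Real.exp (1 - 2 * K - 90000 * Z) / Real.log z ^ 2
        = Real.exp (1 - 2 * K - 90000 * Z) * Real.exp (-(2 * Real.log (Real.log z))) := by rw [hlogsq]; ring
      _ = Real.exp (1 - 2 * K - 90000 * Z - 2 * Real.log (Real.log z)) := by rw [← Real.exp_add]; rfl
      _ ≤ Real.exp (∑ l ∈ pr z 1, (-(2 / (l : ℝ)) - 90000 * (1 / ((l : ℝ) * Real.sqrt l)))) := by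
          apply Real.exp_le_exp.2
          rw [Finset.sum_sub_distrib, Finset.sum_neg_distrib, ← Finset.mul_sum, e1, hl]
          linarith [hS'.2]
      _ = ∏ l ∈ pr z 1, Real.exp (-(2 / (l : ℝ)) - 90000 * (1 / ((l : ℝ) * Real.sqrt l))) := Real.exp_sum _ _
      _ ≤ _ := by
          apply Finset.prod_le_prod
          · intro l _; positivity
          · intro l hl
            exact (factor_bound n l (hpr l hl).1 (hpr l hl).2).1
  · calc ∏ l ∈ pr z 1, (1 - gg ff n l) ≤ ∏ l ∈ pr z 1, Real.exp (-(2 / (l : ℝ)) + 90000 * (1 / ((l : ℝ) * Real.sqrt l))) := by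
          apply Finset.prod_le_prod
          · intro l hl
            exact le_trans (Real.exp_pos _).le (factor_bound n l (hpr l hl).1 (hpr l hl).2).1
          · intro l hl
            exact (factor_bound n l (hpr l hl).1 (hpr l hl).2).2
      _ = Real.exp (∑ l ∈ pr z 1, (-(2 / (l : ℝ)) + 90000 * (1 / ((l : ℝ) * Real.sqrt l)))) := (Real.exp_sum _ _).symm
      _ ≤ Real.exp (1 + 2 * K + 90000 * Z - 2 * Real.log (Real.log z)) := by
          apply Real.exp_le_exp.2
          rw [Finset.sum_add_distrib, Finset.sum_neg_distrib, ← Finset.mul_sum, e1, hl]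
          linarith [hS'.1]
      _ = Real.exp (1 + 2 * K + 90000 * Z) * Real.exp (-(2 * Real.log (Real.log z))) := by rw [← Real.exp_add]; rfl
      _ = _ := by rw [hlogsq]; ring

end Pool.Agent.U310.FS
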